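import Mathlib
import Pool.Agent.Lib.MP_e98621_co.Defs
import Pool.Agent.Lib.MP_e98621_co.Main

open Pool.Agent.Lib.MP_e98621_co

namespace Pool.Agent.Results.MP_e98621_co.Separation

/-- For all integers `1 ≤ ℓ' < ℓ` there are a canonical theory `T` and a limit object `φ` of `T`
with `φ ∈ UCouple[ℓ]` and `φ ∉ Independence[ℓ']`. -/
theorem result : ∀ ℓ' ℓ : ℕ, 1 ≤ ℓ' → ℓ' < ℓ →
    ∃ (L : Lang) (T : CanonicalTheory L) (φ : Obj L),
      IsLimitObject T φ ∧ UCouple T φ ℓ ∧ ¬ Independence φ ℓ' :=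
  separation

end Pool.Agent.Results.MP_e98621_co.Separation
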